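import Pool.Agent.Helper64.MH.Defs

/-!
# MH part OT: semidiscrete optimal transport (power cells with prescribed masses)
-/

set_option autoImplicit false

namespace MH.H67

open MeasureTheory Matrix Filter Topology
open scoped ENNReal

variable {d : ℕ} {T : Type} [Fintype T] [Nonempty T]

/-- lower envelope -/
noncomputable def F (q : T → Fin d → ℝ) (c : T → ℝ) (x : Fin d → ℝ) : ℝ :=
  Finset.univ.inf' Finset.univ_nonempty (fun t => q t ⬝ᵥ x + c t)

theorem F_le (q : T → Fin d → ℝ) (c : T → ℝ) (x : Fin d → ℝ) (t : T) :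
    F q c x ≤ q t ⬝ᵥ x + c t :=
  Finset.inf'_le _ (Finset.mem_univ t)

theorem le_F (q : T → Fin d → ℝ) (c : T → ℝ) (x : Fin d → ℝ) (a : ℝ)
    (h : ∀ t, a ≤ q t ⬝ᵥ x + c t) : a ≤ F q c x :=
  Finset.le_inf' _ _ (fun t _ => h t)

theorem exists_F (q : T → Fin d → ℝ) (c : T → ℝ) (x : Fin d → ℝ) :
    ∃ t, F q c x = q t ⬝ᵥ x + c t := by
  obtain ⟨t, _, ht⟩ := Finset.exists_mem_eq_inf' (Finset.univ_nonempty (α := T))
    (fun t => q t ⬝ᵥ x + c t)
  exact ⟨t, ht⟩

theorem continuous_F (q : T → Fin d → ℝ) (c : T → ℝ) : Continuous (F q c) := by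
  unfold F
  apply Continuous.finset_inf'_apply
  intro t _
  exact (continuous_const.dotProduct continuous_id).add continuous_const

theorem dot_abs_le (q x : Fin d → ℝ) : |q ⬝ᵥ x| ≤ (∑ i, |q i|) * ‖x‖ := by
  unfold dotProduct
  calc |∑ i, q i * x i| ≤ ∑ i, |q i * x i| := Finset.abs_sum_le_sum_abs _ _
    _ ≤ ∑ i, |q i| * ‖x‖ := by
        apply Finset.sum_le_sum
        intro i _
        rw [abs_mul]
        exact mul_le_mul_of_nonneg_left (norm_le_pi_norm x i) (abs_nonneg _)
    _ = _ := by rw [Finset.sum_mul]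

/-- common bound of the slopes -/
noncomputable def B (q : T → Fin d → ℝ) : ℝ := ∑ t, ∑ i, |q t i|

omit [Nonempty T] in
theorem B_nonneg (q : T → Fin d → ℝ) : 0 ≤ B q :=
  Finset.sum_nonneg fun _ _ => Finset.sum_nonneg fun _ _ => abs_nonneg _

omit [Nonempty T] in
theorem dot_abs_le_B (q : T → Fin d → ℝ) (t : T) (x : Fin d → ℝ) :
    |q t ⬝ᵥ x| ≤ B q * ‖x‖ := by
  refine (dot_abs_le (q t) x).trans ?_
  apply mul_le_mul_of_nonneg_right _ (norm_nonneg _)
  unfold B
  exact Finset.single_le_sum (f := fun t => ∑ i, |q t i|)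
    (fun t _ => Finset.sum_nonneg fun _ _ => abs_nonneg _) (Finset.mem_univ t)

theorem abs_F_le (q : T → Fin d → ℝ) (c : T → ℝ) (x : Fin d → ℝ) :
    |F q c x| ≤ B q * ‖x‖ + ‖c‖ := by
  obtain ⟨t, ht⟩ := exists_F q c x
  rw [ht]
  exact (abs_add_le _ _).trans (add_le_add (dot_abs_le_B q t x) (norm_le_pi_norm c t))

theorem F_lip (q : T → Fin d → ℝ) (c c' : T → ℝ) (x : Fin d → ℝ) :
    F q c x ≤ F q c' x + ‖c - c'‖ := by
  obtain ⟨t, ht⟩ := exists_F q c' x
  have h1 := F_le q c x t
  have h2 := norm_le_pi_norm (c - c') t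
  rw [Pi.sub_apply, Real.norm_eq_abs] at h2
  have h3 := le_abs_self (c t - c' t)
  linarith

variable (μ : Measure (Fin d → ℝ)) [IsFiniteMeasure μ]

theorem integrable_F (hint : Integrable (fun x => ‖x‖) μ) (q : T → Fin d → ℝ) (c : T → ℝ) :
    Integrable (F q c) μ := by
  refine Integrable.mono' ((hint.const_mul (B q)).add (integrable_const ‖c‖))
    (continuous_F q c).aestronglyMeasurable ?_
  exact Eventually.of_forall fun x => by
    rw [Real.norm_eq_abs]
    exact abs_F_le q c x

/-- the dual functional -/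
noncomputable def Phi (q : T → Fin d → ℝ) (m : T → ℝ) (c : T → ℝ) : ℝ :=
  ∫ x, F q c x ∂μ - ∑ t, m t * c t

theorem Phi_shift (hint : Integrable (fun x => ‖x‖) μ) (q : T → Fin d → ℝ) (m c : T → ℝ)
    (hm : ∑ t, m t = (μ Set.univ).toReal) (k : ℝ) :
    Phi μ q m (fun t => c t + k) = Phi μ q m c := by
  have hF : ∀ x, F q (fun t => c t + k) x = F q c x + k := by
    intro x
    apply le_antisymm
    · obtain ⟨t, ht⟩ := exists_F q c x
      have := F_le q (fun t => c t + k) x t
      linarith
    · apply le_F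
      intro t
      have := F_le q c x t
      linarith
  unfold Phi
  simp_rw [hF]
  rw [integral_add (integrable_F μ hint q c) (integrable_const k), integral_const]
  simp only [smul_eq_mul, mul_add, Finset.sum_add_distrib]
  rw [← Finset.sum_mul, hm]
  simp only [Measure.real]
  ring

theorem Phi_continuous (hint : Integrable (fun x => ‖x‖) μ) (q : T → Fin d → ℝ) (m : T → ℝ) :
    Continuous (Phi μ q m) := by
  unfold Phi
  apply Continuous.sub
  · have hlip : ∀ c c' : T → ℝ, ∫ x, F q c x ∂μ ≤ ∫ x, F q c' x ∂μ + ‖c - c'‖ * μ.real Set.univ := by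
      intro c c'
      have : ∫ x, F q c x ∂μ ≤ ∫ x, (F q c' x + ‖c - c'‖) ∂μ :=
        integral_mono (integrable_F μ hint q c)
          ((integrable_F μ hint q c').add (integrable_const _)) (fun x => F_lip q c c' x)
      rw [integral_add (integrable_F μ hint q c') (integrable_const _), integral_const] at this
      simp only [smul_eq_mul] at this
      linarith
    have : LipschitzWith (Real.toNNReal (μ.real Set.univ)) (fun c : T → ℝ => ∫ x, F q c x ∂μ) := by
      apply LipschitzWith.of_dist_le_mul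
      intro c c'
      rw [Real.dist_eq, dist_eq_norm, Real.coe_toNNReal _ measureReal_nonneg]
      rw [abs_le]
      have h1 := hlip c c'
      have h2 := hlip c' c
      rw [norm_sub_rev] at h2
      constructor <;> linarith
    exact this.continuous
  · fun_prop

theorem exists_max (hint : Integrable (fun x => ‖x‖) μ) (q : T → Fin d → ℝ) (m : T → ℝ)
    (hm0 : ∀ t, 0 < m t) (hm : ∑ t, m t = (μ Set.univ).toReal) :
    ∃ c : T → ℝ, ∀ c', Phi μ q m c' ≤ Phi μ q m c := by
  classical
  -- minimal mass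
  obtain ⟨t0, -, ht0⟩ := Finset.exists_min_image Finset.univ m (Finset.univ_nonempty (α := T))
  set I : ℝ := ∫ x, ‖x‖ ∂μ with hI
  have hI0 : 0 ≤ I := integral_nonneg fun _ => norm_nonneg _
  set M : ℝ := 2 * B q * I / m t0 with hM
  have hM0 : 0 ≤ M := by
    have := B_nonneg q
    have := hm0 t0
    positivity
  have hcomp : IsCompact (Set.Icc (0 : T → ℝ) (fun _ => M)) := isCompact_Icc
  have hne : (Set.Icc (0 : T → ℝ) (fun _ => M)).Nonempty := ⟨0, le_rfl, fun _ => hM0⟩
  obtain ⟨c, hc, hmax⟩ := hcomp.exists_isMaxOn hne (Phi_continuous μ hint q m).continuousOn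
  refine ⟨c, fun c' => ?_⟩
  obtain ⟨s0, -, hs0⟩ := Finset.exists_min_image Finset.univ c' (Finset.univ_nonempty (α := T))
  -- normalise
  rw [← Phi_shift μ hint q m c' hm (-(c' s0))]
  set c'' : T → ℝ := fun t => c' t + -(c' s0) with hc''
  have hc0 : ∀ t, 0 ≤ c'' t := fun t => by
    have := hs0 t (Finset.mem_univ t)
    simp only [hc'']
    linarith
  have hcs : c'' s0 = 0 := by simp [hc'']
  by_cases hin : c'' ∈ Set.Icc (0 : T → ℝ) (fun _ => M)
  · exact hmax hin
  · have hex : ∃ t, M < c'' t := by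
      by_contra hcon
      push Not at hcon
      exact hin ⟨fun t => hc0 t, fun t => hcon t⟩
    obtain ⟨t1, ht1⟩ := hex
    have h0 : Phi μ q m 0 ≤ Phi μ q m c := hmax ⟨le_rfl, fun _ => hM0⟩
    refine le_trans ?_ h0
    -- lower bound of Phi 0
    have hlow : -(B q * I) ≤ Phi μ q m 0 := by
      unfold Phi
      have : ∫ x, -(B q * ‖x‖) ∂μ ≤ ∫ x, F q 0 x ∂μ := by
        apply integral_mono ((hint.const_mul (B q)).neg) (integrable_F μ hint q 0)
        intro x
        have := (abs_le.mp (abs_F_le q 0 x)).1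
        simp only [norm_zero, add_zero] at this
        exact this
      rw [integral_neg, integral_const_mul] at this
      simp only [Pi.zero_apply, mul_zero, Finset.sum_const_zero, sub_zero]
      linarith
    have hup : Phi μ q m c'' ≤ B q * I - m t0 * M := by
      unfold Phi
      have h1 : ∫ x, F q c'' x ∂μ ≤ ∫ x, B q * ‖x‖ ∂μ := by
        apply integral_mono (integrable_F μ hint q c'') (hint.const_mul (B q))
        intro x
        have h2 := F_le q c'' x s0
        have h3 := (abs_le.mp (dot_abs_le_B q s0 x)).2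
        simp only
        linarith
      rw [integral_const_mul] at h1
      have h2 : m t0 * M ≤ ∑ t, m t * c'' t := by
        calc m t0 * M ≤ m t1 * c'' t1 :=
              mul_le_mul (ht0 t1 (Finset.mem_univ _)) ht1.le hM0 (hm0 t1).le
          _ ≤ _ := Finset.single_le_sum (f := fun t => m t * c'' t)
              (fun t _ => mul_nonneg (hm0 t).le (hc0 t)) (Finset.mem_univ t1)
      linarith
    have hMm : m t0 * M = 2 * B q * I := by
      rw [hM]
      have := (hm0 t0).ne'
      field_simp
    linarith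

/-- strict cell with margin -/
def scell (q : T → Fin d → ℝ) (c : T → ℝ) (t : T) (ε : ℝ) : Set (Fin d → ℝ) :=
  {x | ∀ s, s ≠ t → q t ⬝ᵥ x + c t + ε ≤ q s ⬝ᵥ x + c s}

omit [Fintype T] [Nonempty T] in
theorem scell_closed (q : T → Fin d → ℝ) (c : T → ℝ) (t : T) (ε : ℝ) :
    IsClosed (scell q c t ε) := by
  have : scell q c t ε = ⋂ s, ⋂ (_ : s ≠ t), {x | q t ⬝ᵥ x + c t + ε ≤ q s ⬝ᵥ x + c s} := by
    ext x
    simp [scell]
  rw [this]
  refine isClosed_iInter fun s => isClosed_iInter fun _ => isClosed_le ?_ ?_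
  · exact ((continuous_const.dotProduct continuous_id).add continuous_const).add continuous_const
  · exact (continuous_const.dotProduct continuous_id).add continuous_const

theorem scell_le (hint : Integrable (fun x => ‖x‖) μ) (q : T → Fin d → ℝ) (m c : T → ℝ)
    (hc : ∀ c', Phi μ q m c' ≤ Phi μ q m c) (t : T) (ε : ℝ) (hε : 0 < ε) :
    μ.real (scell q c t ε) ≤ m t := by
  classical
  set c' : T → ℝ := fun s => c s + if s = t then ε else 0 with hc'
  have h := hc c'
  unfold Phi at h
  have hsum : ∑ s, m s * c' s = ∑ s, m s * c s + m t * ε := by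
    simp only [hc', mul_add, Finset.sum_add_distrib]
    congr 1
    simp
  rw [hsum] at h
  have hint1 := integrable_F μ hint q c
  have hint2 := integrable_F μ hint q c'
  have h1 : ∫ x, F q c' x ∂μ - ∫ x, F q c x ∂μ ≤ m t * ε := by linarith
  rw [← integral_sub hint2 hint1] at h1
  have hms : MeasurableSet (scell q c t ε) := (scell_closed q c t ε).measurableSet
  have h2 : ∫ x, (scell q c t ε).indicator (fun _ => ε) x ∂μ ≤ ∫ x, (F q c' x - F q c x) ∂μ := by
    apply integral_mono ((integrable_const ε).indicator hms) (hint2.sub hint1)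
    intro x
    by_cases hx : x ∈ scell q c t ε
    · simp only [Set.indicator_of_mem hx]
      have h3 : q t ⬝ᵥ x + c t + ε ≤ F q c' x := by
        apply le_F
        intro s
        by_cases hs : s = t
        · subst hs
          simp only [hc', if_true]
          linarith
        · simp only [hc', if_neg hs, add_zero]
          exact hx s hs
      have h4 := F_le q c x t
      simp only [Pi.sub_apply]
      linarith
    · simp only [Set.indicator_of_notMem hx]
      have : F q c x ≤ F q c' x := by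
        apply le_F
        intro s
        have h3 := F_le q c x s
        have h4 : (0 : ℝ) ≤ if s = t then ε else 0 := by split_ifs <;> linarith
        simp only [hc']
        linarith
      simp only [Pi.sub_apply]
      linarith
  rw [integral_indicator_const _ hms, smul_eq_mul] at h2
  have h3 : μ.real (scell q c t ε) * ε ≤ m t * ε := h2.trans h1
  exact le_of_mul_le_mul_right h3 hε

theorem hyper_null {d : ℕ} (p : Fin d → ℝ) (hp : p ≠ 0) (r : ℝ) :
    (volume : Measure (Fin d → ℝ)) {x | p ⬝ᵥ x = r} = 0 := by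
  by_cases hex : ∃ x0 : Fin d → ℝ, p ⬝ᵥ x0 = r
  · obtain ⟨x0, hx0⟩ := hex
    let L : (Fin d → ℝ) →ₗ[ℝ] ℝ :=
      { toFun := fun x => p ⬝ᵥ x
        map_add' := fun x y => dotProduct_add p x y
        map_smul' := fun a x => by simp [dotProduct_smul] }
    have h1 : {x : Fin d → ℝ | p ⬝ᵥ x = r} =
        (fun x => x + -x0) ⁻¹' ((LinearMap.ker L : Submodule ℝ (Fin d → ℝ)) : Set (Fin d → ℝ)) := by
      ext x
      simp only [Set.mem_preimage, SetLike.mem_coe, LinearMap.mem_ker]
      change p ⬝ᵥ x = r ↔ p ⬝ᵥ (x + -x0) = 0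
      rw [← sub_eq_add_neg, dotProduct_sub, hx0, sub_eq_zero]
    have h2 : volume ((LinearMap.ker L : Submodule ℝ (Fin d → ℝ)) : Set (Fin d → ℝ)) = 0 := by
      apply Measure.addHaar_submodule
      intro htop
      apply hp
      have h3 : p ∈ LinearMap.ker L := by rw [htop]; trivial
      have h4 : p ⬝ᵥ p = 0 := LinearMap.mem_ker.mp h3
      exact dotProduct_self_eq_zero.mp h4
    rw [h1, measure_preimage_add_right, h2]
  · have : {x : Fin d → ℝ | p ⬝ᵥ x = r} = ∅ := by
      ext x
      simp only [Set.mem_empty_iff_false, iff_false]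
      intro hx
      exact hex ⟨x, hx⟩
    rw [this, measure_empty]

theorem ot : S_OT := by
  intro d T _ _ μ _ hac hint q hq m hm0 hm
  classical
  obtain ⟨c, hc⟩ := exists_max μ hint q m hm0 hm
  refine ⟨c, ?_⟩
  -- each cell has mass at most m t
  have hle : ∀ t, μ (cell q c t) ≤ ENNReal.ofReal (m t) := by
    intro t
    -- union of scells
    have hmono : Monotone (fun n : ℕ => scell q c t (1 / ((n : ℝ) + 1))) := by
      intro a b hab x hx s hs
      have h1 := hx s hs
      have h2 : 1 / ((b : ℝ) + 1) ≤ 1 / ((a : ℝ) + 1) := by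
        apply one_div_le_one_div_of_le (by positivity)
        have : (a : ℝ) ≤ b := by exact_mod_cast hab
        linarith
      linarith
    have hU : μ (⋃ n : ℕ, scell q c t (1 / ((n : ℝ) + 1))) ≤ ENNReal.ofReal (m t) := by
      rw [hmono.measure_iUnion]
      apply iSup_le
      intro n
      have h := scell_le μ hint q m c hc t (1 / ((n : ℝ) + 1)) (by positivity)
      rw [← ENNReal.ofReal_toReal (measure_ne_top μ (scell q c t (1 / ((n : ℝ) + 1))))]
      exact ENNReal.ofReal_le_ofReal h
    have hsub : cell q c t ⊆ (⋃ n : ℕ, scell q c t (1 / ((n : ℝ) + 1))) ∪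
        ⋃ s : {s // s ≠ t}, {x | (q s - q t) ⬝ᵥ x = c t - c s} := by
      intro x hx
      by_cases h : ∃ s, s ≠ t ∧ q t ⬝ᵥ x + c t = q s ⬝ᵥ x + c s
      · obtain ⟨s, hs, h⟩ := h
        right
        refine Set.mem_iUnion.mpr ⟨⟨s, hs⟩, ?_⟩
        change (q s - q t) ⬝ᵥ x = c t - c s
        rw [sub_dotProduct]
        linarith
      · push Not at h
        left
        have hlt : ∀ s, s ≠ t → q t ⬝ᵥ x + c t < q s ⬝ᵥ x + c s := fun s hs =>
          lt_of_le_of_ne (hx s) (h s hs)
        -- choose n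
        have : ∀ᶠ n : ℕ in atTop, ∀ s ∈ (Finset.univ : Finset T), s ≠ t →
            q t ⬝ᵥ x + c t + 1 / ((n : ℝ) + 1) ≤ q s ⬝ᵥ x + c s := by
          rw [Filter.eventually_all_finset]
          intro s _
          by_cases hs : s = t
          · exact Eventually.of_forall fun _ h => absurd hs h
          · have h1 : Tendsto (fun n : ℕ => q t ⬝ᵥ x + c t + 1 / ((n : ℝ) + 1)) atTop
                (𝓝 (q t ⬝ᵥ x + c t + 0)) :=
              tendsto_const_nhds.add tendsto_one_div_add_atTop_nhds_zero_nat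
            rw [add_zero] at h1
            exact (h1.eventually_lt_const (hlt s hs)).mono fun n hn _ => hn.le
        obtain ⟨n, hn⟩ := this.exists
        exact Set.mem_iUnion.mpr ⟨n, fun s hs => hn s (Finset.mem_univ s) hs⟩
    have hnull : μ (⋃ s : {s // s ≠ t}, {x | (q s - q t) ⬝ᵥ x = c t - c s}) = 0 := by
      rw [measure_iUnion_null_iff]
      intro s
      apply hac
      apply hyper_null
      intro h
      exact s.2 (hq (sub_eq_zero.mp h))
    calc μ (cell q c t) ≤ _ := measure_mono hsub
      _ ≤ _ := measure_union_le _ _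
      _ ≤ ENNReal.ofReal (m t) + 0 := add_le_add hU hnull.le
      _ = _ := add_zero _
  have hle' : ∀ t, (μ (cell q c t)).toReal ≤ m t := fun t =>
    ENNReal.toReal_le_of_le_ofReal (hm0 t).le (hle t)
  have hcov : (μ Set.univ).toReal ≤ ∑ t, (μ (cell q c t)).toReal := by
    have h1 : (Set.univ : Set (Fin d → ℝ)) ⊆ ⋃ t, cell q c t := by
      intro x _
      obtain ⟨t, ht⟩ := exists_F q c x
      exact Set.mem_iUnion.mpr ⟨t, fun s => by rw [← ht]; exact F_le q c x s⟩
    have h2 : μ Set.univ ≤ ∑ t, μ (cell q c t) :=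
      (measure_mono h1).trans (measure_iUnion_fintype_le _ _)
    rw [← ENNReal.toReal_sum (fun t _ => measure_ne_top μ _)]
    exact ENNReal.toReal_mono (ENNReal.sum_ne_top.mpr fun t _ => measure_ne_top μ _) h2
  intro t
  rw [← hm] at hcov
  by_contra hne
  have hlt : (μ (cell q c t)).toReal < m t := lt_of_le_of_ne (hle' t) hne
  have : ∑ t, (μ (cell q c t)).toReal < ∑ t, m t :=
    Finset.sum_lt_sum (fun s _ => hle' s) ⟨t, Finset.mem_univ t, hlt⟩
  linarith

end MH.H67
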